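import Pool.Agent.Y386.IR.Stm

/-!
# Project IR (helper386): `(p : q)`-colourable graphs have imperfection ratio at most `p / (2 q)`

Adapted from `imp_le_of_five_two` in `Pool/Agent/H692R2/Imp2.lean` (there `p = 5`, `q = 2`).
-/

set_option autoImplicit false

namespace Pool.Agent.Y195.IR

open Pool.Agent.H692R2 Pool.Agent.Y386.IR Finset

theorem t_UBC : S_UBC := by
  classical
  intro V _ G p q c hq hpq hc2 hc
  unfold imp
  rcases isEmpty_or_nonempty V with hV | hV
  · have h0 : (0 : ℝ) ≤ p / (2 * q) := by positivity
    convert h0
    convert Real.sSup_empty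
    rw [Set.eq_empty_iff_forall_notMem]
    rintro r ⟨x, hx, _⟩
    exact hx (Subsingleton.elim _ _)
  refine csSup_le ⟨_, fun _ => 1, fun h => by
    obtain ⟨v⟩ := hV
    simpa using congrFun h v, rfl⟩ ?_
  rintro r ⟨x, hx, rfl⟩
  obtain ⟨v₀, hv₀⟩ : ∃ v, x v ≠ 0 := by
    by_contra h
    push Not at h
    exact hx (funext h)
  set W := (replicated G x).cliqueNum with hW
  have hle : ∀ v, x v ≤ W := fun v => by
    have := sum_le_cliqueNum G x {v} (by simp)
    simpa using this
  have hadj : ∀ u v, G.Adj u v → x u + x v ≤ W := fun u v huv => by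
    have := sum_le_cliqueNum G x {u, v} (by
      intro a ha b hb hab
      simp only [Finset.coe_insert, Finset.coe_singleton, Set.mem_insert_iff,
        Set.mem_singleton_iff] at ha hb
      rcases ha with rfl | rfl <;> rcases hb with rfl | rfl
      · exact absurd rfl hab
      · exact huv
      · exact huv.symm
      · exact absurd rfl hab)
    rwa [Finset.sum_pair huv.ne] at this
  have hWpos : 0 < W := lt_of_lt_of_le (Nat.pos_of_ne_zero hv₀) (hle v₀)
  rw [div_le_iff₀ (by exact_mod_cast hWpos)]
  have key := fracChi_replicated_le (A := Fin W × Fin p) G x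
    (fun a => {v | 2 * W ≤ 2 * x v + a.1 ∨ (a.1 < 2 * x v ∧ a.2 ∈ c v)}) (2 * q) (by omega) ?_ ?_
  · refine key.trans (le_of_eq ?_)
    simp only [Fintype.card_prod, Fintype.card_fin, Nat.cast_mul, Nat.cast_ofNat]
    ring
  · rintro ⟨j, k⟩ u hu v hv _ huv
    have h1 := hadj u v huv
    have hj := j.2
    simp only [Set.mem_setOf_eq] at hu hv
    rcases hu with hu | ⟨hu, hku⟩ <;> rcases hv with hv | ⟨hv, hkv⟩
    · omega
    · omega
    · omega
    · exact Finset.disjoint_left.1 (hc u v huv) hku hkv
  · intro v
    refine ⟨(({j : Fin W | 2 * W ≤ 2 * x v + j} : Finset (Fin W)) ×ˢ (univ : Finset (Fin p))) ∪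
      (({j : Fin W | ¬ (2 * W ≤ 2 * x v + j) ∧ (j : ℕ) < 2 * x v} : Finset (Fin W)) ×ˢ c v),
      ?_, ?_⟩
    · rintro ⟨j, k⟩ ha
      simp only [Finset.mem_union, Finset.mem_product, Finset.mem_filter, Finset.mem_univ,
        true_and, and_true] at ha
      rcases ha with ha | ⟨⟨_, h⟩, hk⟩
      · exact Or.inl ha
      · exact Or.inr ⟨h, hk⟩
    · rw [Finset.card_union_of_disjoint]
      · rw [Finset.card_product, Finset.card_product, hc2, Finset.card_univ, Fintype.card_fin]
        have hxW := hle v
        have e1 : #{j : Fin W | 2 * W ≤ 2 * x v + j} = 2 * x v - W := by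
          have : ({j : Fin W | 2 * W ≤ 2 * x v + j} : Finset (Fin W)).map Fin.valEmbedding =
              Finset.Ico (2 * W - 2 * x v) W := by
            ext m
            simp only [Finset.mem_map, Finset.mem_filter, Finset.mem_univ, true_and,
              Fin.valEmbedding_apply, Finset.mem_Ico]
            constructor
            · rintro ⟨j, hj, rfl⟩
              have := j.2
              omega
            · rintro ⟨h1, h2⟩
              exact ⟨⟨m, h2⟩, by simp only; omega, rfl⟩
          rw [← Finset.card_map Fin.valEmbedding, this, Nat.card_Ico]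
          omega
        have e2 : #{j : Fin W | ¬ (2 * W ≤ 2 * x v + j) ∧ (j : ℕ) < 2 * x v} =
            min (2 * x v) (2 * W - 2 * x v) := by
          have : ({j : Fin W | ¬ (2 * W ≤ 2 * x v + j) ∧ (j : ℕ) < 2 * x v} :
              Finset (Fin W)).map Fin.valEmbedding =
              Finset.range (min (min (2 * x v) (2 * W - 2 * x v)) W) := by
            ext m
            simp only [Finset.mem_map, Finset.mem_filter, Finset.mem_univ, true_and,
              Fin.valEmbedding_apply, Finset.mem_range]
            constructor
            · rintro ⟨j, hj, rfl⟩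
              have := j.2
              omega
            · intro h1
              exact ⟨⟨m, by omega⟩, by simp only; omega, rfl⟩
          rw [← Finset.card_map Fin.valEmbedding, this, Finset.card_range]
          omega
        rw [e1, e2]
        rcases le_total (2 * x v) W with h2 | h2
        · have e3 : min (2 * x v) (2 * W - 2 * x v) = 2 * x v := by omega
          have e4 : 2 * x v - W = 0 := by omega
          rw [e3, e4, zero_mul, zero_add]
          exact le_of_eq (by ring)
        · have e3 : min (2 * x v) (2 * W - 2 * x v) = 2 * W - 2 * x v := by omega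
          have e4 : 2 * (2 * x v - W) + (2 * W - 2 * x v) = 2 * x v := by omega
          rw [e3]
          calc 2 * q * x v = q * (2 * x v) := by ring
            _ = q * (2 * (2 * x v - W) + (2 * W - 2 * x v)) := by rw [e4]
            _ = (2 * x v - W) * (2 * q) + (2 * W - 2 * x v) * q := by ring
            _ ≤ (2 * x v - W) * p + (2 * W - 2 * x v) * q :=
                Nat.add_le_add_right (Nat.mul_le_mul_left _ hpq) _
      · rw [Finset.disjoint_left]
        rintro ⟨j, k⟩ h1 h2
        simp only [Finset.mem_product, Finset.mem_filter, Finset.mem_univ, true_and,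
          and_true] at h1 h2
        exact h2.1.1 h1

end Pool.Agent.Y195.IR
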